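import Pool.Agent.X265.Gpd.Words
import Pool.Agent.X265.Inf.Main

/-!
# Groups generated by finitary automorphisms and groups of directed automorphisms
-/

set_option autoImplicit false

namespace Pool.Agent.X265.Gpd

open Pool.Agent.Y462.SS Pool.Agent.Y110.FJ Pool.Agent.X176.FJ Pool.Agent.Y331.SS
open Pool.Agent.X265.Ctr Pool.Agent.X265.Inf

variable {X : Type} {P : Subgroup (Equiv.Perm X)}

theorem c_Gam {C : ∀ (G : Type) [Group G], Prop} (hC : ClosedE C) (hP : C P) (S : Sys P)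
    (hD : ∀ ρ, C (DS S ρ)) : C (Gam S) := by
  have h1 : C (Monoid.CoprodI (DT S)) := c_coprodI hC (DT S) fun c => hD (rep S c)
  have h2 : C (FreeGroup (ℕ → X)) := Pool.Agent.Y179.SS.t_free C hC.base _
  have h3 : C (Gam1 S) := hC.base.coprod _ _ h1 h2
  exact hC.base.coprod ↥(Fn P) (Gam1 S) (c_Fn hC hP) h3

/-- the group generated by the finitary automorphisms and the groupoid -/
noncomputable def HH (S : Sys P) : Subgroup (T X) := (tau (psi S)).range

theorem c_HH {C : ∀ (G : Type) [Group G], Prop} (hC : ClosedE C) (hP : C P) (S : Sys P)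
    (hD : ∀ ρ, C (DS S ρ)) : C (HH S) :=
  c_range hC hP (psi S) psi_mem (c_Gam hC hP S hD) (Nn S) en_all fun _ ha h => Nn_det ha h

theorem HH_sec {S : Sys P} {g : T X} (hg : g ∈ HH S) (x : X) : sec g x ∈ HH S := by
  obtain ⟨γ, rfl⟩ := hg
  exact ⟨_, (sec_tau _ γ x).symm⟩

theorem HH_of_Fn {S : Sys P} {f : T X} (hf : f ∈ Fn P) : f ∈ HH S := ⟨_, tau_fF hf⟩

theorem HH_of_dir {S : Sys P} {g : T X} {ρ : ℕ → X} (hg : S.Dr g ρ) : g ∈ HH S :=
  ⟨_, tau_mor hg⟩

/-- groups generated by elements with sections of some level in the groupoid or finitary -/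
theorem main {C : ∀ (G : Type) [Group G], Prop} (hC : ClosedE C) (hP : C P) (S : Sys P)
    (hD : ∀ ρ, C (DS S ρ)) (G : Type) [Group G] (f : G →* Equiv.Perm (List X))
    (hf : Function.Injective f) (A : Set G) (hA : Subgroup.closure A = ⊤)
    (hT : ∀ s ∈ A, IsTree (f s)) (hL : ∀ s ∈ A, LocIn P (f s))
    (hN : ∀ s ∈ A, ∃ n, ∀ v : List X, v.length = n →
      (∃ ρ h, S.Dr h ρ ∧ IsSec (f s) v h.1) ∨ ∃ k, DepthAt (f s) v k) : C G := by
  have hmem : ∀ g, f g ∈ T X := by
    have h1 : Subgroup.closure A ≤ (T X).comap f := by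
      rw [Subgroup.closure_le]
      exact hT
    intro g
    have h2 : g ∈ Subgroup.closure A := by rw [hA]; exact Subgroup.mem_top g
    exact h1 h2
  let f' : G →* T X := f.codRestrict (T X) hmem
  have hf' : Function.Injective f' := fun a b h => hf (congrArg Subtype.val h)
  let K : ℕ → Subgroup G := fun n => (Lv (HH S) n ⊓ FP P).comap f'
  have hK : Monotone K := by
    apply monotone_nat_of_le_succ
    intro n g hg
    exact ⟨Lv_le_succ (fun g hg x => HH_sec hg x) n hg.1, hg.2⟩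
  have hKS : ∀ s ∈ A, ∃ n, s ∈ K n := by
    intro s hs
    have h1 : f' s ∈ FP P := mem_FP_of_locIn (g := f' s) (hL s hs)
    obtain ⟨n, hn⟩ := hN s hs
    refine ⟨n, mem_Lv_of_sections n _ ?_, h1⟩
    intro v hv
    rcases hn v hv with ⟨ρ, h, hh, h2⟩ | ⟨k, hk⟩
    · rw [eq_of_isSec (g := f' s) (h := h) h2]
      exact HH_of_dir hh
    · exact HH_of_Fn (Fn_of_depthAt (g := f' s) h1 hk)
  let U : Subgroup G :=
    { carrier := {g | ∃ N, g ∈ K N}
      one_mem' := ⟨0, one_mem _⟩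
      mul_mem' := by
        rintro a b ⟨m, hm⟩ ⟨n, hn⟩
        exact ⟨max m n, mul_mem (hK (le_max_left m n) hm) (hK (le_max_right m n) hn)⟩
      inv_mem' := by
        rintro a ⟨m, hm⟩
        exact ⟨m, inv_mem hm⟩ }
  have hU : Subgroup.closure A ≤ U := by
    rw [Subgroup.closure_le]
    exact hKS
  have hall : ∀ g, ∃ N, g ∈ K N := by
    intro g
    have h2 : g ∈ Subgroup.closure A := by rw [hA]; exact Subgroup.mem_top g
    exact hU h2
  refine Pool.Agent.Y430.SS.t_union C hC.base G K hK hall ?_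
  intro n
  let φ : K n →* (Lv (HH S) n ⊓ FP P : Subgroup (T X)) :=
    { toFun := fun g => ⟨f' g.1, g.2⟩
      map_one' := Subtype.ext (map_one f')
      map_mul' := fun a b => Subtype.ext (map_mul f' a.1 b.1) }
  refine hC.base.of_injective _ _ φ ?_ (Lv_closed' hC hP (HH S) (c_HH hC hP S hD) n)
  intro a b hab
  have h0 : (φ a).1 = (φ b).1 := congrArg Subtype.val hab
  exact Subtype.ext (hf' h0)

/-! ## families of groups of directed automorphisms -/

/-- For every ray `ρ` (an infinite word) `D ρ` is a group of automorphisms of the tree `X^*` which fix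
the ray `ρ`, have a section in `D (shift of ρ)` at the first letter of `ρ` and finitary sections at all
other letters, with vertex permutations in `P` and finitely many different sections below every
vertex. -/
structure DirFamily {X : Type} (P : Subgroup (Equiv.Perm X))
    (D : (ℕ → X) → Subgroup (Equiv.Perm (List X))) : Prop where
  tree : ∀ ρ, ∀ g ∈ D ρ, IsTree g
  loc : ∀ ρ, ∀ g ∈ D ρ, LocIn P g
  fix : ∀ ρ, ∀ g ∈ D ρ, ∀ n : ℕ, g (List.ofFn fun i : Fin n => ρ i) = List.ofFn fun i : Fin n => ρ i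
  shift : ∀ ρ, ∀ g ∈ D ρ, ∃ h ∈ D (fun n => ρ (n + 1)), IsSec g [ρ 0] h
  off : ∀ ρ, ∀ g ∈ D ρ, ∀ x, x ≠ ρ 0 → ∃ k, DepthAt g [x] k

theorem img_of_fix {g : T X} {ρ : ℕ → X} (h : ∀ n, g.1 (pre ρ n) = pre ρ n) : img g ρ = ρ := by
  funext n
  change root (rs g ρ n) (ρ n) = ρ n
  have h1 := h (n + 1)
  rw [pre_succ, apply_append, h n, cons_eq, nil_eq] at h1
  have h2 := List.append_cancel_left h1
  rw [rs_eq]
  exact (List.cons.inj h2).1

/-- the groupoid of a family -/
def sysOf (D : (ℕ → X) → Subgroup (Equiv.Perm (List X))) (hD : DirFamily P D) : Sys P where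
  Dr g ρ := g.1 ∈ D ρ
  one ρ := one_mem _
  mul := by
    intro g h ρ hg hh
    rw [img_of_fix (fun n => hD.fix ρ _ hh n)] at hg
    exact mul_mem hg hh
  inv := by
    intro g ρ hg
    rw [img_of_fix (fun n => hD.fix ρ _ hg n)]
    exact inv_mem hg
  shf := by
    intro g ρ hg
    obtain ⟨h, hh, hs⟩ := hD.shift ρ _ hg
    have h1 : sec g (ρ 0) = ⟨h, hD.tree _ h hh⟩ := sec_eq_of_isSec hs
    rw [h1]
    exact hh
  mem := fun hg => mem_FP_of_locIn (hD.loc _ _ hg)
  off := by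
    intro g ρ hg x hx
    obtain ⟨k, hk⟩ := hD.off ρ _ hg x hx
    have h1 : g ∈ FP P := mem_FP_of_locIn (hD.loc _ _ hg)
    exact Fn_of_depthAt (v := [x]) h1 hk

theorem spinal {C : ∀ (G : Type) [Group G], Prop} (hC : ClosedE C) (hP : C P)
    (D : (ℕ → X) → Subgroup (Equiv.Perm (List X))) (hD : DirFamily P D) (hDC : ∀ ρ, C (D ρ))
    (G : Type) [Group G] (f : G →* Equiv.Perm (List X))
    (hf : Function.Injective f) (A : Set G) (hA : Subgroup.closure A = ⊤)
    (hT : ∀ s ∈ A, IsTree (f s)) (hL : ∀ s ∈ A, LocIn P (f s))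
    (hN : ∀ s ∈ A, ∃ n, ∀ v : List X, v.length = n →
      (∃ ρ, ∃ h ∈ D ρ, IsSec (f s) v h) ∨ ∃ k, DepthAt (f s) v k) : C G := by
  refine main hC hP (sysOf D hD) ?_ G f hf A hA hT hL ?_
  · intro ρ
    let φ : DS (sysOf D hD) ρ →* D ρ :=
      { toFun := fun g => ⟨g.1.1, g.2.1⟩
        map_one' := rfl
        map_mul' := fun a b => rfl }
    refine hC.base.of_injective _ _ φ ?_ (hDC ρ)
    intro a b hab
    have h0 : (φ a).1 = (φ b).1 := congrArg Subtype.val hab
    have h1 : a.1.1 = b.1.1 := h0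
    exact Subtype.ext (Subtype.ext h1)
  · intro s hs
    obtain ⟨n, hn⟩ := hN s hs
    refine ⟨n, fun v hv => ?_⟩
    rcases hn v hv with ⟨ρ, h, hh, h2⟩ | h
    · exact Or.inl ⟨ρ, ⟨h, hD.tree ρ h hh⟩, hh, h2⟩
    · exact Or.inr h

end Pool.Agent.X265.Gpd
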